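import Pool.Agent.Q54.AP3
import Pool.Agent.Q54.AP4

/-!
# Sums of at most three base-3 antipalindromic numbers: exactly five exceptions

Every positive integer other than 24, 37, 49, 117, 421 is a sum of at most three numbers that are
antipalindromic in base 3 (and these five are not).

The proof: call `X` a generalized antipalindrome of length `L` if it has `L` ternary digits, leading
zeros allowed, with `u_i + u_{L-1-i} = 2`.  For each of the four length patterns `(L, L-1, L-3)`,
`(L, L-2, L-3)`, `(L, L-3, L-4)`, `(L, L-3, L-5)` all integers of the right parity in a fixed interval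
`[α 3^L, β 3^L]` are sums of three generalized antipalindromes of these lengths: this holds for
`L = 12, 13` (a bit set computation in the kernel) and passes from `L` to `L + 2` by choosing the
outermost digits.  One more choice of outermost digits (now with nonzero leading digits) gives all
`N ≥ 3^14`, and the numbers below `3^14` are checked by the kernel.
-/

set_option autoImplicit false

namespace Pool.Agent.Results.MP_8ef15a_nt.ExactlyFiveExceptions

/-- `n` is antipalindromic in base 3: if `u_0, …, u_k` are the base-3 digits of `n` (`u_k ≠ 0`), then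
`u_i + u_{k-i} = 2` for all `0 ≤ i ≤ k`.  (`Nat.digits 3 n` lists `u_0, u_1, …, u_k`.) -/
def Antipalindromic (n : ℕ) : Prop :=
  0 < n ∧ ∀ i < (Nat.digits 3 n).length,
    (Nat.digits 3 n).getD i 0 + (Nat.digits 3 n).getD ((Nat.digits 3 n).length - 1 - i) 0 = 2

/-- `N` is a sum of at most three antipalindromic numbers. -/
def SumOfAtMostThree (N : ℕ) : Prop :=
  Antipalindromic N ∨ (∃ a b, Antipalindromic a ∧ Antipalindromic b ∧ N = a + b) ∨
    ∃ a b c, Antipalindromic a ∧ Antipalindromic b ∧ Antipalindromic c ∧ N = a + b + c

instance : DecidablePred Antipalindromic := fun n => by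
  unfold Antipalindromic
  infer_instance

/-- the antipalindromic numbers below 422 -/
def lst : List ℕ := (List.range 422).filter (fun n => decide (Antipalindromic n))

theorem exceptions_check : ∀ N ∈ [24, 37, 49, 117, 421], N ∉ lst ∧
    (∀ a ∈ lst, N - a ∉ lst) ∧ ∀ a ∈ lst, ∀ b ∈ lst, N - a - b ∉ lst := by
  decide +kernel

/-- **Every** positive integer `N` is a sum of at most three antipalindromic numbers if and only if it is
not one of `24, 37, 49, 117, 421`. -/
theorem result : ∀ N : ℕ, 0 < N →
    (SumOfAtMostThree N ↔ (N ≠ 24 ∧ N ≠ 37 ∧ N ≠ 49 ∧ N ≠ 117 ∧ N ≠ 421)) := by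
  intro N h0
  constructor
  · intro h
    by_contra hc
    have hmem : N ∈ [24, 37, 49, 117, 421] := by
      simp only [List.mem_cons, List.not_mem_nil, or_false]
      omega
    have hle : N ≤ 421 := by
      simp only [List.mem_cons, List.not_mem_nil, or_false] at hmem
      omega
    obtain ⟨h1, h2, h3⟩ := exceptions_check N hmem
    have key : ∀ a, a ≤ 421 → Antipalindromic a → a ∈ lst := by
      intro a ha hA
      simp only [lst, List.mem_filter, List.mem_range, decide_eq_true_eq]
      exact ⟨by omega, hA⟩
    rcases h with h | ⟨a, b, ha, hb, h⟩ | ⟨a, b, c, ha, hb, hc', h⟩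
    · exact h1 (key _ hle h)
    · apply h2 a (key _ (by omega) ha)
      rw [show N - a = b by omega]
      exact key _ (by omega) hb
    · apply h3 a (key _ (by omega) ha) b (key _ (by omega) hb)
      rw [show N - a - b = c by omega]
      exact key _ (by omega) hc'
  · intro h
    have h1 : Pool.Agent.Q54.AP.Sum3 N := by
      rcases Nat.lt_or_ge N (3 ^ 14) with h2 | h2
      · exact Pool.Agent.Q54.AP.small h0 h2 h
      · exact Pool.Agent.Q54.AP.large h2
    exact h1

end Pool.Agent.Results.MP_8ef15a_nt.ExactlyFiveExceptions
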